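import Pool.Agent.H891.FNC.Defs

/-!
The example: H = p01 p23 - p12^2 in the Pluecker coordinates of the line through x and Frob x,
and F with x1 x2 F = H.
-/

namespace Pool.Agent.H891.FNC

open MvPolynomial

section ring

variable (R : Type) [CommRing R] (q : ℕ)

noncomputable def P01 : MvPolynomial (Fin (3 + 1)) R := X 0 * X 1 ^ q - X 1 * X 0 ^ q
noncomputable def P12 : MvPolynomial (Fin (3 + 1)) R := X 1 * X 2 ^ q - X 2 * X 1 ^ q
noncomputable def P23 : MvPolynomial (Fin (3 + 1)) R := X 2 * X 3 ^ q - X 3 * X 2 ^ q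

/-- the quadratic complex -/
noncomputable def HH : MvPolynomial (Fin (3 + 1)) R := P01 R q * P23 R q - P12 R q ^ 2

/-- the example -/
noncomputable def FF : MvPolynomial (Fin (3 + 1)) R :=
  (X 0 * X 1 ^ (q - 1) - X 0 ^ q) * (X 3 ^ q - X 3 * X 2 ^ (q - 1)) -
    X 1 * X 2 * (X 2 ^ (q - 1) - X 1 ^ (q - 1)) ^ 2

variable {R q}

theorem HH_eq (hq1 : 1 ≤ q) : HH R q = X 1 * X 2 * FF R q := by
  obtain ⟨r, rfl⟩ : ∃ r, q = r + 1 := ⟨q - 1, by omega⟩
  simp only [HH, FF, P01, P12, P23, Nat.add_sub_cancel]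
  ring

theorem pd_pow (hq : (q : R) = 0) (i : Fin (3 + 1)) (f : MvPolynomial (Fin (3 + 1)) R) :
    pderiv i (f ^ q) = 0 := by
  rw [Derivation.leibniz_pow]
  have : (q : MvPolynomial (Fin (3 + 1)) R) = 0 := by
    rw [← map_natCast (C : R →+* MvPolynomial (Fin (3 + 1)) R), hq, map_zero]
  rw [nsmul_eq_mul, this, zero_mul]

theorem dX (i j : Fin (3 + 1)) : pderiv i (X j : MvPolynomial (Fin (3 + 1)) R) =
    if i = j then 1 else 0 := by
  split_ifs with h
  · rw [h, pderiv_X_self]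
  · rw [pderiv_X_of_ne (fun hh => h hh.symm)]

theorem dP01 (hq : (q : R) = 0) (i : Fin (3 + 1)) : pderiv i (P01 R q) =
    (if i = 0 then 1 else 0) * X 1 ^ q - (if i = 1 then 1 else 0) * X 0 ^ q := by
  rw [P01, map_sub, Derivation.leibniz, Derivation.leibniz, pd_pow hq, pd_pow hq, dX, dX]
  simp only [smul_eq_mul, mul_zero, zero_add]
  ring

theorem dP12 (hq : (q : R) = 0) (i : Fin (3 + 1)) : pderiv i (P12 R q) =
    (if i = 1 then 1 else 0) * X 2 ^ q - (if i = 2 then 1 else 0) * X 1 ^ q := by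
  rw [P12, map_sub, Derivation.leibniz, Derivation.leibniz, pd_pow hq, pd_pow hq, dX, dX]
  simp only [smul_eq_mul, mul_zero, zero_add]
  ring

theorem dP23 (hq : (q : R) = 0) (i : Fin (3 + 1)) : pderiv i (P23 R q) =
    (if i = 2 then 1 else 0) * X 3 ^ q - (if i = 3 then 1 else 0) * X 2 ^ q := by
  rw [P23, map_sub, Derivation.leibniz, Derivation.leibniz, pd_pow hq, pd_pow hq, dX, dX]
  simp only [smul_eq_mul, mul_zero, zero_add]
  ring

theorem dHH (i : Fin (3 + 1)) : pderiv i (HH R q) =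
    P01 R q * pderiv i (P23 R q) + P23 R q * pderiv i (P01 R q) -
      2 * P12 R q * pderiv i (P12 R q) := by
  rw [HH, map_sub, Derivation.leibniz, Derivation.leibniz_pow]
  simp only [smul_eq_mul, nsmul_eq_mul, Nat.cast_ofNat, pow_one, Nat.add_one_sub_one]
  ring

theorem d0 (hq : (q : R) = 0) : pderiv 0 (HH R q) = X 1 ^ q * P23 R q := by
  rw [dHH, dP01 hq, dP12 hq, dP23 hq]
  simp
  ring

theorem d1 (hq : (q : R) = 0) : pderiv 1 (HH R q) =
    -(X 0 ^ q * P23 R q) - 2 * P12 R q * X 2 ^ q := by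
  rw [dHH, dP01 hq, dP12 hq, dP23 hq]
  simp
  ring

theorem d2 (hq : (q : R) = 0) : pderiv 2 (HH R q) =
    X 3 ^ q * P01 R q + 2 * P12 R q * X 1 ^ q := by
  rw [dHH, dP01 hq, dP12 hq, dP23 hq]
  simp
  ring

theorem d3 (hq : (q : R) = 0) : pderiv 3 (HH R q) = -(X 2 ^ q * P01 R q) := by
  rw [dHH, dP01 hq, dP12 hq, dP23 hq]
  simp
  ring

theorem sum_HH (hq : (q : R) = 0) :
    ∑ i, X i ^ q * pderiv i (HH R q) = 0 := by
  have : ∑ i : Fin (3 + 1), X i ^ q * pderiv i (HH R q) = X 0 ^ q * pderiv 0 (HH R q) +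
      X 1 ^ q * pderiv 1 (HH R q) + X 2 ^ q * pderiv 2 (HH R q) +
      X 3 ^ q * pderiv 3 (HH R q) := Fin.sum_univ_four _
  rw [this, d0 hq, d1 hq, d2 hq, d3 hq]
  ring

/-- derivative of H in terms of F -/
theorem dHF (hq1 : 1 ≤ q) (i : Fin (3 + 1)) : pderiv i (HH R q) =
    X 1 * X 2 * pderiv i (FF R q) + FF R q * pderiv i (X 1 * X 2) := by
  rw [HH_eq hq1, Derivation.leibniz]
  simp only [smul_eq_mul]

theorem FF_hom (hq1 : 1 ≤ q) : (FF R q).IsHomogeneous (2 * q) := by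
  obtain ⟨r, rfl⟩ : ∃ r, q = r + 1 := ⟨q - 1, by omega⟩
  have hX : ∀ (i : Fin (3 + 1)) (m : ℕ), (X i ^ m : MvPolynomial (Fin (3 + 1)) R).IsHomogeneous m := by
    intro i m
    have := (isHomogeneous_X R i).pow m
    simpa using this
  have hX1 : ∀ i : Fin (3 + 1), (X i : MvPolynomial (Fin (3 + 1)) R).IsHomogeneous 1 :=
    fun i => isHomogeneous_X R i
  rw [FF, Nat.add_sub_cancel]
  have h1 : (X 0 * X 1 ^ r - X 0 ^ (r + 1) : MvPolynomial (Fin (3 + 1)) R).IsHomogeneous (r + 1) := by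
    apply IsHomogeneous.sub
    · have := (hX1 0).mul (hX 1 r)
      rwa [show 1 + r = r + 1 from Nat.add_comm 1 r] at this
    · exact hX 0 _
  have h2 : (X 3 ^ (r + 1) - X 3 * X 2 ^ r : MvPolynomial (Fin (3 + 1)) R).IsHomogeneous (r + 1) := by
    apply IsHomogeneous.sub
    · exact hX 3 _
    · have := (hX1 3).mul (hX 2 r)
      rwa [show 1 + r = r + 1 from Nat.add_comm 1 r] at this
  have h3 : ((X 2 ^ r - X 1 ^ r : MvPolynomial (Fin (3 + 1)) R) ^ 2).IsHomogeneous (r * 2) :=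
    ((hX 2 r).sub (hX 1 r)).pow 2
  have h4 : (X 1 * X 2 * (X 2 ^ r - X 1 ^ r : MvPolynomial (Fin (3 + 1)) R) ^ 2).IsHomogeneous
      (1 + 1 + r * 2) := ((hX1 1).mul (hX1 2)).mul h3
  apply IsHomogeneous.sub
  · have := h1.mul h2
    rwa [← two_mul] at this
  · have e : 1 + 1 + r * 2 = 2 * (r + 1) := by ring
    rwa [e] at h4

theorem map_FF {S : Type} [CommRing S] (f : R →+* S) : map f (FF R q) = FF S q := by
  simp [FF]

end ring

end Pool.Agent.H891.FNC
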