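import Pool.Agent.H891.FNC.Gauss

/-!
The twisted cubic on V(F), and the restriction of the Gauss map to it.
-/

namespace Pool.Agent.H891.FNC

open MvPolynomial

section par

variable (k : Type) [CommRing k]

/-- the parametrization of the twisted cubic -/
noncomputable def par : MvPolynomial (Fin (3 + 1)) k →ₐ[k] MvPolynomial (Fin 2) k :=
  aeval (fun i : Fin (3 + 1) => (X 0 : MvPolynomial (Fin 2) k) ^ (3 - (i : ℕ)) * X 1 ^ (i : ℕ))

theorem par0 : par k (X 0) = X 0 ^ 3 := by simp [par]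
theorem par1 : par k (X 1) = X 0 ^ 2 * X 1 := by simp [par]
theorem par2 : par k (X 2) = X 0 * X 1 ^ 2 := by simp [par]
theorem par3 : par k (X 3) = X 1 ^ 3 := by simp [par]

/-- exponents -/
noncomputable def mu (m : Fin (3 + 1) →₀ ℕ) : Fin 2 →₀ ℕ :=
  Finsupp.single 0 (3 * m 0 + 2 * m 1 + m 2) + Finsupp.single 1 (m 1 + 2 * m 2 + 3 * m 3)

theorem par_monomial (m : Fin (3 + 1) →₀ ℕ) (c : k) :
    par k (monomial m c) = monomial (mu m) c := by
  have h1 : (monomial (mu m) c : MvPolynomial (Fin 2) k) =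
      C c * (X 0 ^ (3 * m 0 + 2 * m 1 + m 2) * X 1 ^ (m 1 + 2 * m 2 + 3 * m 3)) := by
    rw [X_pow_eq_monomial, X_pow_eq_monomial, monomial_mul, C_mul_monomial, mu]
    simp
  rw [h1, par, aeval_monomial, Finsupp.prod_fintype _ _ (fun i => pow_zero _)]
  have h2 : ∏ i : Fin (3 + 1), ((X 0 : MvPolynomial (Fin 2) k) ^ (3 - (i : ℕ)) * X 1 ^ (i : ℕ)) ^ m i
      = (X 0 ^ 3 * X 1 ^ 0) ^ m 0 * (X 0 ^ 2 * X 1 ^ 1) ^ m 1 * (X 0 ^ 1 * X 1 ^ 2) ^ m 2 *
        (X 0 ^ 0 * X 1 ^ 3) ^ m 3 := Fin.prod_univ_four _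
  rw [h2]
  congr 1
  ring

theorem par_hom {m : ℕ} {f : MvPolynomial (Fin (3 + 1)) k} (hf : f.IsHomogeneous m) :
    (par k f).IsHomogeneous (3 * m) := by
  apply hf.aeval
  intro i
  have h1 : ((X 0 : MvPolynomial (Fin 2) k) ^ (3 - (i : ℕ))).IsHomogeneous (3 - (i : ℕ)) := by
    simpa using (isHomogeneous_X k (0 : Fin 2)).pow (3 - (i : ℕ))
  have h2 : ((X 1 : MvPolynomial (Fin 2) k) ^ (i : ℕ)).IsHomogeneous (i : ℕ) := by
    simpa using (isHomogeneous_X k (1 : Fin 2)).pow (i : ℕ)
  have h3 := h1.mul h2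
  have e : 3 - (i : ℕ) + (i : ℕ) = 3 := by omega
  rwa [e] at h3

theorem par_hc (d : ℕ) (f : MvPolynomial (Fin (3 + 1)) k) :
    par k (homogeneousComponent d f) = homogeneousComponent (3 * d) (par k f) := by
  induction f using MvPolynomial.induction_on' with
  | monomial m c =>
    have h1 : (monomial m c : MvPolynomial (Fin (3 + 1)) k).IsHomogeneous m.degree :=
      isHomogeneous_monomial c rfl
    have h2 := par_hom k h1
    rw [homogeneousComponent_of_mem h1, homogeneousComponent_of_mem h2]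
    by_cases h : d = m.degree
    · rw [if_pos h, if_pos (by rw [h])]
    · rw [if_neg h, if_neg (by omega), map_zero]
  | add f g hf hg => rw [map_add, map_add, map_add, map_add, hf, hg]

/-- the homogeneous ideal of the twisted cubic -/
noncomputable def curve : Ideal (MvPolynomial (Fin (3 + 1)) k) := RingHom.ker (par k)

theorem mem_curve (f : MvPolynomial (Fin (3 + 1)) k) : f ∈ curve k ↔ par k f = 0 := Iff.rfl

theorem par_P01 (q : ℕ) : par k (P01 k q) = X 0 ^ (2 * q + 2) * (X 0 * X 1 ^ q - X 1 * X 0 ^ q) := by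
  rw [P01, map_sub, map_mul, map_mul, map_pow, map_pow, par0, par1]
  ring

theorem par_P12 (q : ℕ) : par k (P12 k q) =
    X 0 ^ (q + 1) * X 1 ^ (q + 1) * (X 0 * X 1 ^ q - X 1 * X 0 ^ q) := by
  rw [P12, map_sub, map_mul, map_mul, map_pow, map_pow, par1, par2]
  ring

theorem par_P23 (q : ℕ) : par k (P23 k q) =
    X 1 ^ (2 * q + 2) * (X 0 * X 1 ^ q - X 1 * X 0 ^ q) := by
  rw [P23, map_sub, map_mul, map_mul, map_pow, map_pow, par2, par3]
  ring

theorem par_HH (q : ℕ) : par k (HH k q) = 0 := by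
  rw [HH, map_sub, map_mul, map_pow, par_P01, par_P12, par_P23]
  ring

end par

section field

variable (k : Type) [Field k]

theorem X_ne (i : Fin 2) : (X i : MvPolynomial (Fin 2) k) ≠ 0 := X_ne_zero i

theorem par_FF {q : ℕ} (hq : 1 ≤ q) : par k (FF k q) = 0 := by
  have h := par_HH k q
  rw [HH_eq hq, map_mul, map_mul, par1, par2] at h
  rcases mul_eq_zero.1 h with h3 | h3
  · exact absurd h3 (mul_ne_zero (mul_ne_zero (pow_ne_zero _ (X_ne k 0)) (X_ne k 1))
      (mul_ne_zero (X_ne k 0) (pow_ne_zero _ (X_ne k 1))))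
  · exact h3

theorem delta_ne {q : ℕ} (hq : 2 ≤ q) :
    (X 0 * X 1 ^ q - X 1 * X 0 ^ q : MvPolynomial (Fin 2) k) ≠ 0 := by
  intro h
  have h1 : (X 0 * X 1 ^ q : MvPolynomial (Fin 2) k) = X 1 * X 0 ^ q := sub_eq_zero.1 h
  have h2 : (X 0 * X 1 ^ q : MvPolynomial (Fin 2) k) =
      monomial (Finsupp.single 0 1 + Finsupp.single 1 q) 1 := by
    rw [X_pow_eq_monomial, X, monomial_mul, mul_one]
  have h3 : (X 1 * X 0 ^ q : MvPolynomial (Fin 2) k) =
      monomial (Finsupp.single 1 1 + Finsupp.single 0 q) 1 := by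
    rw [X_pow_eq_monomial, X, monomial_mul, mul_one]
  rw [h2, h3] at h1
  have h4 := monomial_left_injective (one_ne_zero (α := k)) h1
  have h5 := DFunLike.congr_fun h4 0
  simp at h5
  omega

theorem par_F0 {q : ℕ} (hq : 1 ≤ q) (hq0 : (q : k) = 0) :
    X 0 ^ 3 * X 1 ^ 3 * par k (pderiv 0 (FF k q)) =
      X 0 ^ (2 * q) * X 1 ^ (3 * q + 2) * (X 0 * X 1 ^ q - X 1 * X 0 ^ q) := by
  have h := congrArg (par k) (F0_eq (L := k) hq)
  rw [map_mul, map_mul, par1, par2, d0 hq0, map_mul, map_pow, par1, par_P23] at h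
  linear_combination h

theorem par_F3 {q : ℕ} (hq : 1 ≤ q) (hq0 : (q : k) = 0) :
    X 0 ^ 3 * X 1 ^ 3 * par k (pderiv 3 (FF k q)) =
      -(X 0 ^ (3 * q + 2) * X 1 ^ (2 * q) * (X 0 * X 1 ^ q - X 1 * X 0 ^ q)) := by
  have h := congrArg (par k) (F3_eq (L := k) hq)
  rw [map_mul, map_mul, par1, par2, d3 hq0, map_neg, map_mul, map_pow, par2, par_P01] at h
  linear_combination h

theorem F3_not_mem {q : ℕ} (hq : 2 ≤ q) (hq0 : (q : k) = 0) :
    pderiv 3 (FF k q) ∉ curve k := by
  intro h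
  rw [mem_curve] at h
  have h1 := par_F3 k (by omega) hq0
  rw [h, mul_zero] at h1
  have h2 : X 0 ^ (3 * q + 2) * X 1 ^ (2 * q) * (X 0 * X 1 ^ q - X 1 * X 0 ^ q) =
      (0 : MvPolynomial (Fin 2) k) := by linear_combination h1
  exact absurd h2 (mul_ne_zero (mul_ne_zero (pow_ne_zero _ (X_ne k 0)) (pow_ne_zero _ (X_ne k 1)))
    (delta_ne k hq))

theorem pd_pow2 {R : Type} [CommRing R] {p : ℕ} (hp : (p : R) = 0) (i : Fin 2)
    (f : MvPolynomial (Fin 2) R) : pderiv i (f ^ p) = 0 := by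
  rw [Derivation.leibniz_pow]
  have : (p : MvPolynomial (Fin 2) R) = 0 := by
    rw [← map_natCast (C : R →+* MvPolynomial (Fin 2) R), hp, map_zero]
  rw [nsmul_eq_mul, this, zero_mul]

theorem separable_key {p q : ℕ} (hp0 : (p : k) = 0) (hq0 : (q : k) = 0) (h2 : (2 : k) ≠ 0)
    (A B : MvPolynomial (Fin 2) k) (hp : p ≠ 0)
    (h : X 1 ^ (q + 2) * B ^ p + X 0 ^ (q + 2) * A ^ p = 0) : B = 0 := by
  have h1 := congrArg (pderiv 1) h
  rw [map_add, map_zero, Derivation.leibniz, Derivation.leibniz, pd_pow2 hp0, pd_pow2 hp0,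
    pow_add, pow_add, Derivation.leibniz, Derivation.leibniz, pd_pow2 hq0, pd_pow2 hq0,
    Derivation.leibniz_pow, Derivation.leibniz_pow, pderiv_X_self,
    pderiv_X_of_ne (show (0 : Fin 2) ≠ 1 by decide)] at h1
  simp only [smul_eq_mul, mul_zero, zero_add, add_zero, nsmul_eq_mul, Nat.cast_ofNat, mul_one,
    Nat.add_one_sub_one, pow_one] at h1
  have hC2 : (C 2 : MvPolynomial (Fin 2) k) = 2 := by rw [map_ofNat]
  have h3 : (C 2 : MvPolynomial (Fin 2) k) ≠ 0 := by
    rw [Ne, C_eq_zero]; exact h2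
  rw [hC2] at h3
  have h4 : (2 : MvPolynomial (Fin 2) k) * (X 1 ^ q * X 1) * B ^ p = 0 := by
    linear_combination h1
  rcases mul_eq_zero.1 h4 with h5 | h5
  · exact absurd h5 (mul_ne_zero h3 (mul_ne_zero (pow_ne_zero _ (X_ne k 1)) (X_ne k 1)))
  · exact pow_eq_zero_iff hp |>.1 h5

theorem FF_separable_on_curve {p q : ℕ} (hp : p ≠ 0) (hp0 : (p : k) = 0) (h2 : (2 : k) ≠ 0)
    (hq : 2 ≤ q) (hq0 : (q : k) = 0) : ¬ InseparableOn p (FF k q) (curve k) := by
  intro h
  obtain ⟨a, b, e, -, -, hb, hab⟩ := h 0 3 (F3_not_mem k hq hq0)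
  apply hb
  rw [mem_curve] at hab ⊢
  apply separable_key k hp0 hq0 h2 (par k a) (par k b) hp
  rw [map_sub, map_mul, map_mul, map_pow, map_pow] at hab
  have h0 := par_F0 k (by omega : 1 ≤ q) hq0
  have h3 := par_F3 k (by omega : 1 ≤ q) hq0
  have h4 : X 0 ^ (2 * q) * X 1 ^ (2 * q) * (X 0 * X 1 ^ q - X 1 * X 0 ^ q) *
      (X 1 ^ (q + 2) * par k b ^ p + X 0 ^ (q + 2) * par k a ^ p) = 0 := by
    have e1 : (X 1 : MvPolynomial (Fin 2) k) ^ (3 * q + 2) = X 1 ^ (2 * q) * X 1 ^ (q + 2) := by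
      rw [← pow_add]; congr 1; omega
    have e2 : (X 0 : MvPolynomial (Fin 2) k) ^ (3 * q + 2) = X 0 ^ (2 * q) * X 0 ^ (q + 2) := by
      rw [← pow_add]; congr 1; omega
    rw [e1] at h0
    rw [e2] at h3
    linear_combination (X 0 ^ 3 * X 1 ^ 3) * hab - par k b ^ p * h0 + par k a ^ p * h3
  rcases mul_eq_zero.1 h4 with h5 | h5
  · exact absurd h5 (mul_ne_zero (mul_ne_zero (pow_ne_zero _ (X_ne k 0))
      (pow_ne_zero _ (X_ne k 1))) (delta_ne k hq))
  · exact h5

theorem curve_prime : (curve k).IsPrime := RingHom.ker_isPrime _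

theorem curve_trdeg : Algebra.trdeg k (MvPolynomial (Fin (3 + 1)) k ⧸ curve k) = 2 := by
  apply le_antisymm
  · have h1 : Algebra.trdeg k (MvPolynomial (Fin (3 + 1)) k ⧸ curve k) ≤
        Algebra.trdeg k (MvPolynomial (Fin 2) k) :=
      trdeg_le_of_injective (Ideal.kerLiftAlg (par k)) (Ideal.kerLiftAlg_injective (par k))
    rw [MvPolynomial.trdeg_of_isDomain] at h1
    refine h1.trans (le_of_eq ?_)
    simp
  · have h1 : AlgebraicIndependent k (fun i : Fin 2 => (X i : MvPolynomial (Fin 2) k) ^ 3) := by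
      have h2 := MvPolynomial.algebraicIndependent_polynomial_aeval_X (R := k) (ι := Fin 2)
        (fun _ => Polynomial.X ^ 3) (fun _ => (Polynomial.transcendental_X k).pow (by norm_num))
      simpa using h2
    let x : Fin 2 → (MvPolynomial (Fin (3 + 1)) k ⧸ curve k) :=
      fun i => if i = 0 then Ideal.Quotient.mk _ (X 0) else Ideal.Quotient.mk _ (X 3)
    have h3 : AlgebraicIndependent k x := by
      apply AlgebraicIndependent.of_comp (Ideal.kerLiftAlg (par k))
      convert h1 using 1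
      funext i
      fin_cases i
      · simp only [x]
        exact (Ideal.kerLiftAlg_mk (par k) (X 0)).trans (par0 k)
      · simp only [x]
        exact (Ideal.kerLiftAlg_mk (par k) (X 3)).trans (par3 k)
    have h4 := h3.cardinalMk_le_trdeg
    simpa using h4

theorem curve_isIrreducibleCurve : IsIrreducibleCurve (curve k) := by
  refine ⟨curve_prime k, ?_, curve_trdeg k⟩
  intro f hf d
  rw [mem_curve] at hf ⊢
  rw [par_hc, hf, map_zero]

end field

section def_over

theorem map_par {K S : Type} [CommRing K] [CommRing S] (f : K →+* S)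
    (g : MvPolynomial (Fin (3 + 1)) K) : par S (map f g) = map f (par K g) := by
  induction g using MvPolynomial.induction_on' with
  | monomial m c => rw [map_monomial, par_monomial, par_monomial, map_monomial]
  | add a b ha hb => rw [map_add, map_add, map_add, map_add, ha, hb]

theorem curve_definedOver (K : Type) [Field K] : DefinedOver K (curve (AlgebraicClosure K)) := by
  refine ⟨curve K, le_antisymm ?_ ?_⟩
  · let rep : (Fin 2 →₀ ℕ) → (Fin (3 + 1) →₀ ℕ) := Function.invFun mu
    have hrep : ∀ m, mu (rep (mu m)) = mu m := fun m => Function.invFun_eq ⟨m, rfl⟩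
    let ψ : MvPolynomial (Fin 2) (AlgebraicClosure K) →ₗ[AlgebraicClosure K]
        MvPolynomial (Fin (3 + 1)) (AlgebraicClosure K) :=
      (basisMonomials (Fin 2) (AlgebraicClosure K)).constr (AlgebraicClosure K)
        (fun w => monomial (rep w) 1)
    have hψ : ∀ w (c : AlgebraicClosure K), ψ (monomial w c) = monomial (rep w) c := by
      intro w c
      have h1 : (monomial w c : MvPolynomial (Fin 2) (AlgebraicClosure K)) =
          c • basisMonomials (Fin 2) (AlgebraicClosure K) w := by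
        rw [coe_basisMonomials]
        simp [smul_monomial]
      rw [h1, map_smul]
      simp only [ψ]
      rw [Module.Basis.constr_basis, smul_monomial]
      simp
    have key : ∀ f : MvPolynomial (Fin (3 + 1)) (AlgebraicClosure K),
        f - ψ (par _ f) ∈ (curve K).map (map (algebraMap K (AlgebraicClosure K))) := by
      intro f
      induction f using MvPolynomial.induction_on' with
      | monomial m c =>
        rw [par_monomial, hψ]
        have h1 : (monomial m c - monomial (rep (mu m)) c :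
            MvPolynomial (Fin (3 + 1)) (AlgebraicClosure K)) =
            C c * map (algebraMap K (AlgebraicClosure K))
              (monomial m 1 - monomial (rep (mu m)) 1) := by
          rw [map_sub, map_monomial, map_monomial, map_one, mul_sub, C_mul_monomial,
            C_mul_monomial, mul_one]
        rw [h1]
        apply Ideal.mul_mem_left
        apply Ideal.mem_map_of_mem
        rw [mem_curve, map_sub, par_monomial, par_monomial, hrep, sub_self]
      | add a b ha hb =>
        have h1 : a + b - ψ (par _ (a + b)) = (a - ψ (par _ a)) + (b - ψ (par _ b)) := by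
          rw [map_add, map_add]; abel
        rw [h1]
        exact Ideal.add_mem _ ha hb
    intro f hf
    rw [mem_curve] at hf
    have := key f
    rwa [hf, map_zero, sub_zero] at this
  · rw [Ideal.map_le_iff_le_comap]
    intro f hf
    rw [Ideal.mem_comap, mem_curve, map_par, (mem_curve K f).1 hf, map_zero]

end def_over

end Pool.Agent.H891.FNC
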