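import Mathlib

/-!
Definitions for MP_291982_ag (Gauss maps of Frobenius nonclassical hypersurfaces).
-/

namespace Pool.Agent.H891.FNC

open MvPolynomial

/-- F defines a hypersurface of projective n-space over the field K: a homogeneous polynomial of
positive degree in n + 1 variables, nonzero and without repeated factors. -/
def IsHypersurface {K : Type} [Field K] {n : ℕ} (F : MvPolynomial (Fin (n + 1)) K) : Prop :=
  (∃ d : ℕ, 0 < d ∧ F.IsHomogeneous d) ∧ F ≠ 0 ∧ Squarefree F

/-- F is Frobenius nonclassical over the finite field K with q elements: F divides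
x_0^q F_0 + ... + x_n^q F_n. -/
def FrobeniusNonclassical {K : Type} [Field K] [Fintype K] {n : ℕ}
    (F : MvPolynomial (Fin (n + 1)) K) : Prop :=
  F ∣ ∑ i, X i ^ Fintype.card K * pderiv i F

/-- The polynomial F over the algebraic closure of K. -/
noncomputable def geom {K : Type} [Field K] {n : ℕ} (F : MvPolynomial (Fin (n + 1)) K) :
    MvPolynomial (Fin (n + 1)) (AlgebraicClosure K) :=
  map (algebraMap K (AlgebraicClosure K)) F

/-- The Gauss map of V(F) admits p-th powers as coordinate functions. A rational function on the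
component V(G) is a quotient a / b of forms of the same degree such that G does not divide b; the
condition is that on every component V(G) there are rational functions a_i / b_i, not all zero,
such that (F_0 : ... : F_n) = ((a_0/b_0)^p : ... : (a_n/b_n)^p). -/
def GaussMapHasPowerCoordinates {k : Type} [Field k] (p : ℕ) {n : ℕ}
    (F : MvPolynomial (Fin (n + 1)) k) : Prop :=
  ∀ G : MvPolynomial (Fin (n + 1)) k, Irreducible G → G ∣ F →
    ∃ (a b : Fin (n + 1) → MvPolynomial (Fin (n + 1)) k) (e : Fin (n + 1) → ℕ),
      (∀ i, (a i).IsHomogeneous (e i) ∧ (b i).IsHomogeneous (e i) ∧ ¬ G ∣ b i) ∧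
      (∃ i, ¬ G ∣ a i) ∧
      ∀ i j, G ∣ pderiv i F * (b i) ^ p * (a j) ^ p - pderiv j F * (b j) ^ p * (a i) ^ p

/-- The homogeneous prime ideal I defines an irreducible curve in projective n-space over k: its
homogeneous coordinate ring has transcendence degree two. -/
def IsIrreducibleCurve {k : Type} [Field k] {n : ℕ} (I : Ideal (MvPolynomial (Fin (n + 1)) k)) :
    Prop :=
  I.IsPrime ∧ (∀ f ∈ I, ∀ d : ℕ, homogeneousComponent d f ∈ I) ∧
    Algebra.trdeg k (MvPolynomial (Fin (n + 1)) k ⧸ I) = 2

/-- The ideal I (over the algebraic closure) is defined over K: it is generated by polynomials with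
coefficients in K. -/
def DefinedOver (K : Type) [Field K] {n : ℕ}
    (I : Ideal (MvPolynomial (Fin (n + 1)) (AlgebraicClosure K))) : Prop :=
  ∃ J : Ideal (MvPolynomial (Fin (n + 1)) K),
    I = J.map (map (algebraMap K (AlgebraicClosure K)))

/-- The restriction of the Gauss map of V(F) to the curve V(I) is inseparable: every ratio
F_i / F_j defined on the curve is the p-th power of a rational function a / b on it. -/
def InseparableOn {k : Type} [Field k] (p : ℕ) {n : ℕ} (F : MvPolynomial (Fin (n + 1)) k)
    (I : Ideal (MvPolynomial (Fin (n + 1)) k)) : Prop :=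
  ∀ i j, pderiv j F ∉ I → ∃ (a b : MvPolynomial (Fin (n + 1)) k) (e : ℕ),
    a.IsHomogeneous e ∧ b.IsHomogeneous e ∧ b ∉ I ∧
      pderiv i F * b ^ p - pderiv j F * a ^ p ∈ I

end Pool.Agent.H891.FNC
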