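import Pool.Agent.H891.FNC.Irr

/-!
F is Frobenius nonclassical, and its Gauss map has no p-th power coordinates.
-/

namespace Pool.Agent.H891.FNC

open MvPolynomial

variable {L : Type} [Field L] {q : ℕ}

/-- the moment curve -/
noncomputable def ev (L : Type) [Field L] : MvPolynomial (Fin (3 + 1)) L →ₐ[L] Polynomial L :=
  aeval (fun i : Fin (3 + 1) => (Polynomial.X : Polynomial L) ^ (i : ℕ))

theorem ev0 : ev L (X 0) = 1 := by simp [ev]
theorem ev1 : ev L (X 1) = Polynomial.X := by simp [ev]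
theorem ev2 : ev L (X 2) = Polynomial.X ^ 2 := by simp [ev]
theorem ev3 : ev L (X 3) = Polynomial.X ^ 3 := by simp [ev]

theorem ev_P01 : ev L (P01 L q) = Polynomial.X ^ q - Polynomial.X := by
  rw [P01, map_sub, map_mul, map_mul, map_pow, map_pow, ev0, ev1]
  ring

theorem ev_P23 : ev L (P23 L q) =
    Polynomial.X ^ (2 * q + 2) * (Polynomial.X ^ q - Polynomial.X) := by
  rw [P23, map_sub, map_mul, map_mul, map_pow, map_pow, ev2, ev3]
  ring

theorem ev_P12 : ev L (P12 L q) =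
    Polynomial.X ^ (q + 1) * (Polynomial.X ^ q - Polynomial.X) := by
  rw [P12, map_sub, map_mul, map_mul, map_pow, map_pow, ev1, ev2]
  ring

theorem ev_HH : ev L (HH L q) = 0 := by
  rw [HH, map_sub, map_mul, map_pow, ev_P01, ev_P12, ev_P23]
  ring

theorem ev_FF (hq : 1 ≤ q) : ev L (FF L q) = 0 := by
  have h := ev_HH (L := L) (q := q)
  rw [HH_eq hq, map_mul, map_mul, ev1, ev2] at h
  have h1 : (Polynomial.X : Polynomial L) ≠ 0 := Polynomial.X_ne_zero
  have h2 : (Polynomial.X : Polynomial L) ^ 2 ≠ 0 := pow_ne_zero _ h1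
  rcases mul_eq_zero.1 h with h3 | h3
  · exact absurd h3 (mul_ne_zero h1 h2)
  · exact h3

theorem not_dvd_of_ev (hq : 1 ≤ q) {f : MvPolynomial (Fin (3 + 1)) L} (hf : ev L f ≠ 0) :
    ¬ FF L q ∣ f := by
  rintro ⟨g, rfl⟩
  apply hf
  rw [map_mul, ev_FF hq, zero_mul]

theorem X_pow_sub_X_ne (hq : 2 ≤ q) : (Polynomial.X ^ q - Polynomial.X : Polynomial L) ≠ 0 := by
  intro h
  have := congrArg (fun f => Polynomial.coeff f 1) h
  simp only [Polynomial.coeff_sub, Polynomial.coeff_X_pow, Polynomial.coeff_X_one,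
    Polynomial.coeff_zero] at this
  have h1 : 1 ≠ q := by omega
  rw [if_neg h1] at this
  simp at this

theorem not_dvd_X1 (hq : 2 ≤ q) : ¬ FF L q ∣ X 1 :=
  not_dvd_of_ev (by omega) (by rw [ev1]; exact Polynomial.X_ne_zero)

theorem not_dvd_X2 (hq : 2 ≤ q) : ¬ FF L q ∣ X 2 :=
  not_dvd_of_ev (by omega) (by rw [ev2]; exact pow_ne_zero _ Polynomial.X_ne_zero)

theorem not_dvd_G0 (hq : 2 ≤ q) (hq0 : (q : L) = 0) : ¬ FF L q ∣ pderiv 0 (HH L q) := by
  apply not_dvd_of_ev (by omega)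
  rw [d0 hq0, map_mul, map_pow, ev1, ev_P23]
  exact mul_ne_zero (pow_ne_zero _ Polynomial.X_ne_zero)
    (mul_ne_zero (pow_ne_zero _ Polynomial.X_ne_zero) (X_pow_sub_X_ne hq))

theorem not_dvd_G3 (hq : 2 ≤ q) (hq0 : (q : L) = 0) : ¬ FF L q ∣ pderiv 3 (HH L q) := by
  apply not_dvd_of_ev (by omega)
  rw [d3 hq0, map_neg, map_mul, map_pow, ev2, ev_P01]
  exact neg_ne_zero.2 (mul_ne_zero (pow_ne_zero _ (pow_ne_zero _ Polynomial.X_ne_zero))
    (X_pow_sub_X_ne hq))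

theorem FF_prime (hq : 2 ≤ q) : Prime (FF L q) := (FF_irreducible hq).prime

theorem FF_dvd_sum (hq : 2 ≤ q) (hq0 : (q : L) = 0) :
    FF L q ∣ ∑ i, X i ^ q * pderiv i (FF L q) := by
  have h1 : (X 1 * X 2) * ∑ i, X i ^ q * pderiv i (FF L q) =
      FF L q * (- ∑ i, X i ^ q * pderiv i (X 1 * X 2)) := by
    have h2 := sum_HH (R := L) (q := q) hq0
    have h3 : ∑ i, X i ^ q * pderiv i (HH L q) =
        (X 1 * X 2) * ∑ i, X i ^ q * pderiv i (FF L q) +
          FF L q * ∑ i, X i ^ q * pderiv i (X 1 * X 2) := by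
      rw [Finset.mul_sum, Finset.mul_sum, ← Finset.sum_add_distrib]
      apply Finset.sum_congr rfl
      intro i _
      rw [dHF (by omega)]
      ring
    rw [h2] at h3
    linear_combination (-1 : MvPolynomial (Fin (3 + 1)) L) * h3
  have h4 : FF L q ∣ (X 1 * X 2) * ∑ i, X i ^ q * pderiv i (FF L q) := ⟨_, h1⟩
  rcases (FF_prime hq).dvd_or_dvd h4 with h5 | h5
  · rcases (FF_prime hq).dvd_or_dvd h5 with h6 | h6
    · exact absurd h6 (not_dvd_X1 hq)
    · exact absurd h6 (not_dvd_X2 hq)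
  · exact h5

theorem F0_eq (hq : 1 ≤ q) : X 1 * X 2 * pderiv 0 (FF L q) = pderiv 0 (HH L q) := by
  rw [dHF hq, Derivation.leibniz, dX, dX]
  simp

theorem F3_eq (hq : 1 ≤ q) : X 1 * X 2 * pderiv 3 (FF L q) = pderiv 3 (HH L q) := by
  rw [dHF hq, Derivation.leibniz, dX, dX]
  simp

theorem not_dvd_F0 (hq : 2 ≤ q) (hq0 : (q : L) = 0) : ¬ FF L q ∣ pderiv 0 (FF L q) := by
  intro h
  apply not_dvd_G0 hq hq0
  rw [← F0_eq (by omega)]
  exact h.mul_left _

/-- the tangent derivation -/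
noncomputable def DD (L : Type) [Field L] (q : ℕ) (f : MvPolynomial (Fin (3 + 1)) L) :
    MvPolynomial (Fin (3 + 1)) L :=
  pderiv 3 (HH L q) * pderiv 0 f - pderiv 0 (HH L q) * pderiv 3 f

theorem DD_mul (f g : MvPolynomial (Fin (3 + 1)) L) :
    DD L q (f * g) = f * DD L q g + g * DD L q f := by
  simp only [DD, Derivation.leibniz, smul_eq_mul]
  ring

theorem DD_sub (f g : MvPolynomial (Fin (3 + 1)) L) :
    DD L q (f - g) = DD L q f - DD L q g := by
  simp only [DD, map_sub]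
  ring

theorem DD_pow_char {p : ℕ} (hp : (p : L) = 0) (f : MvPolynomial (Fin (3 + 1)) L) :
    DD L q (f ^ p) = 0 := by
  rw [DD, pd_pow hp, pd_pow hp]; ring

theorem DD_FF (hq : 2 ≤ q) : DD L q (FF L q) = 0 := by
  have h1 : X 1 * X 2 * DD L q (FF L q) = 0 := by
    rw [DD]
    have h0 := F0_eq (L := L) (q := q) (by omega)
    have h3 := F3_eq (L := L) (q := q) (by omega)
    linear_combination pderiv 3 (HH L q) * h0 - pderiv 0 (HH L q) * h3
  rcases mul_eq_zero.1 h1 with h2 | h2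
  · exact absurd h2 (mul_ne_zero (X_ne_zero _) (X_ne_zero _))
  · exact h2

theorem DD_G0 (hq0 : (q : L) = 0) :
    DD L q (pderiv 0 (HH L q)) = (X 1 * X 2) ^ q * pderiv 0 (HH L q) := by
  have h1 : DD L q (X 1 ^ q) = 0 := by rw [DD, pd_pow hq0, pd_pow hq0]; ring
  rw [d0 hq0, DD_mul, h1, DD, dP23 hq0, dP23 hq0, d0 hq0]
  simp
  ring

theorem DD_G3 (hq0 : (q : L) = 0) :
    DD L q (pderiv 3 (HH L q)) = -((X 1 * X 2) ^ q * pderiv 3 (HH L q)) := by
  have h1 : DD L q (X 2 ^ q) = 0 := by rw [DD, pd_pow hq0, pd_pow hq0]; ring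
  have h2 : (pderiv 3 (HH L q)) = X 2 ^ q * (- P01 L q) := by rw [d3 hq0]; ring
  have h3 : DD L q (-P01 L q) = - DD L q (P01 L q) := by
    simp only [DD, map_neg]; ring
  rw [h2, DD_mul, h1, h3, DD, dP01 hq0, dP01 hq0, d3 hq0]
  simp
  ring

/-- The key step. -/
theorem key_dvd {p : ℕ} (hp : (p : L) = 0) (h2 : (2 : L) ≠ 0) (hq : 2 ≤ q) (hq0 : (q : L) = 0)
    (u v : MvPolynomial (Fin (3 + 1)) L)
    (h : FF L q ∣ pderiv 0 (HH L q) * u ^ p - pderiv 3 (HH L q) * v ^ p) :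
    FF L q ∣ u ∧ FF L q ∣ v := by
  have hP := FF_prime (L := L) hq
  have hD : FF L q ∣ DD L q (pderiv 0 (HH L q) * u ^ p - pderiv 3 (HH L q) * v ^ p) := by
    obtain ⟨c, hc⟩ := h
    rw [hc, DD_mul, DD_FF hq, mul_zero, add_zero]
    exact dvd_mul_right _ _
  have hD2 : DD L q (pderiv 0 (HH L q) * u ^ p - pderiv 3 (HH L q) * v ^ p) =
      (X 1 * X 2) ^ q * (pderiv 0 (HH L q) * u ^ p + pderiv 3 (HH L q) * v ^ p) := by
    rw [DD_sub, DD_mul, DD_mul, DD_pow_char hp, DD_pow_char hp, DD_G0 hq0, DD_G3 hq0]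
    ring
  rw [hD2] at hD
  have hS : FF L q ∣ pderiv 0 (HH L q) * u ^ p + pderiv 3 (HH L q) * v ^ p := by
    rcases hP.dvd_or_dvd hD with h3 | h3
    · exfalso
      have h4 := hP.dvd_of_dvd_pow h3
      rcases hP.dvd_or_dvd h4 with h5 | h5
      · exact not_dvd_X1 hq h5
      · exact not_dvd_X2 hq h5
    · exact h3
  have hu2 : IsUnit (C 2 : MvPolynomial (Fin (3 + 1)) L) := (isUnit_iff_ne_zero.2 h2).map C
  have hC2 : (C 2 : MvPolynomial (Fin (3 + 1)) L) = 2 := by rw [map_ofNat]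
  have hn2 : ¬ FF L q ∣ C 2 := fun hh => hP.not_isUnit (isUnit_of_dvd_unit hh hu2)
  constructor
  · have h6 : FF L q ∣ C 2 * (pderiv 0 (HH L q) * u ^ p) := by
      have := dvd_add h hS
      rw [hC2]
      convert this using 1
      ring
    rcases hP.dvd_or_dvd h6 with h7 | h7
    · exact absurd h7 hn2
    · rcases hP.dvd_or_dvd h7 with h8 | h8
      · exact absurd h8 (not_dvd_G0 hq hq0)
      · exact hP.dvd_of_dvd_pow h8
  · have h6 : FF L q ∣ C 2 * (pderiv 3 (HH L q) * v ^ p) := by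
      have := dvd_sub hS h
      rw [hC2]
      convert this using 1
      ring
    rcases hP.dvd_or_dvd h6 with h7 | h7
    · exact absurd h7 hn2
    · rcases hP.dvd_or_dvd h7 with h8 | h8
      · exact absurd h8 (not_dvd_G3 hq hq0)
      · exact hP.dvd_of_dvd_pow h8

theorem FF_not_power {p : ℕ} (hp : (p : L) = 0) (h2 : (2 : L) ≠ 0) (hq : 2 ≤ q)
    (hq0 : (q : L) = 0) : ¬ GaussMapHasPowerCoordinates p (FF L q) := by
  intro hG
  obtain ⟨a, b, e, hab, ⟨i, hi⟩, hdvd⟩ := hG (FF L q) (FF_irreducible hq) dvd_rfl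
  have hP := FF_prime (L := L) hq
  have h03 := hdvd 0 3
  have h1 : FF L q ∣ pderiv 0 (HH L q) * (b 0 * a 3) ^ p - pderiv 3 (HH L q) * (b 3 * a 0) ^ p := by
    rw [← F0_eq (by omega : 1 ≤ q), ← F3_eq (by omega : 1 ≤ q)]
    have := h03.mul_left (X 1 * X 2)
    convert this using 1
    rw [mul_pow, mul_pow]
    ring
  obtain ⟨-, h4⟩ := key_dvd hp h2 hq hq0 _ _ h1
  have h5 : FF L q ∣ a 0 := by
    rcases hP.dvd_or_dvd h4 with h6 | h6
    · exact absurd h6 (hab 3).2.2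
    · exact h6
  apply hi
  have h6 := hdvd 0 i
  have hp0 : p ≠ 0 := by
    rintro rfl
    -- then the condition with exponent zero says F divides F_0 - F_3
    have := h03
    simp only [pow_zero, mul_one] at this
    have h7 : FF L q ∣ pderiv 0 (HH L q) * 1 ^ 0 - pderiv 3 (HH L q) * 1 ^ 0 := by
      rw [← F0_eq (by omega : 1 ≤ q), ← F3_eq (by omega : 1 ≤ q)]
      have h8 := this.mul_left (X 1 * X 2)
      convert h8 using 1
      ring
    obtain ⟨h9, -⟩ := key_dvd hp h2 hq hq0 _ _ h7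
    exact hP.not_isUnit (isUnit_of_dvd_one h9)
  have h7 : FF L q ∣ pderiv i (FF L q) * b i ^ p * a 0 ^ p :=
    (h5.trans (dvd_pow_self _ hp0)).mul_left _
  have h8 := dvd_add h6 h7
  rw [sub_add_cancel] at h8
  rcases hP.dvd_or_dvd h8 with h9 | h9
  · exfalso
    rcases hP.dvd_or_dvd h9 with h10 | h10
    · exact not_dvd_F0 hq hq0 h10
    · exact (hab 0).2.2 (hP.dvd_of_dvd_pow h10)
  · exact hP.dvd_of_dvd_pow h9

end Pool.Agent.H891.FNC
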