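import Pool.Agent.H891.FNC.Basic

/-!
Irreducibility of F.
-/

namespace Pool.Agent.H891.FNC

section aux

open Polynomial

theorem natDegree_zero_of_map_mul {R : Type*} [CommRing R] [IsDomain R] {π : R} (hπ : Prime π)
    {A B : R[X]} {c : R} (hc : ¬ π ∣ c)
    (hAB : (A * B).map (Ideal.Quotient.mk (Ideal.span {π})) =
      C (Ideal.Quotient.mk (Ideal.span {π}) c)) (hA : 0 < A.natDegree) : π ∣ A.leadingCoeff := by
  have : (Ideal.span {π}).IsPrime := (Ideal.span_singleton_prime hπ.ne_zero).2 hπ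
  set φ := Ideal.Quotient.mk (Ideal.span {π}) with hφ
  have hc0 : φ c ≠ 0 := by
    intro h
    exact hc (Ideal.mem_span_singleton.1 (Ideal.Quotient.eq_zero_iff_mem.1 h))
  rw [Polynomial.map_mul] at hAB
  have hne : A.map φ * B.map φ ≠ 0 := by
    rw [hAB]; exact C_ne_zero.2 hc0
  have hdeg : (A.map φ).natDegree = 0 := by
    have h1 := natDegree_mul (left_ne_zero_of_mul hne) (right_ne_zero_of_mul hne)
    rw [hAB, natDegree_C] at h1
    omega
  have h2 : (A.map φ).coeff A.natDegree = 0 := by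
    apply coeff_eq_zero_of_natDegree_lt
    omega
  rw [coeff_map, coeff_natDegree] at h2
  exact Ideal.mem_span_singleton.1 (Ideal.Quotient.eq_zero_iff_mem.1 h2)

theorem irr_aux {R : Type*} [CommRing R] [IsDomain R] {π E S u : R} (hπ : Prime π)
    (hE : π ∣ E) (hE2 : ¬ π ^ 2 ∣ E) (hS : ¬ π ∣ S)
    (hcop : ∀ b : R, b ∣ E → b ∣ S → IsUnit b) {q : ℕ} (hq : 2 ≤ q) {F : R[X]}
    (hF : F = C u * C E * X - C E * X ^ q - C S) : Irreducible F := by
  have hE0 : E ≠ 0 := by
    rintro rfl; exact hE2 (dvd_zero _)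
  have hcq : F.coeff q = -E := by
    rw [hF, ← C_mul, coeff_sub, coeff_sub, coeff_C_mul_X, coeff_C_mul_X_pow, coeff_C]
    have h1 : q ≠ 1 := by omega
    have h2 : q ≠ 0 := by omega
    simp [h1, h2]
  have hc0 : F.coeff 0 = -S := by
    rw [hF, ← C_mul, coeff_sub, coeff_sub, coeff_C_mul_X, coeff_C_mul_X_pow, coeff_C]
    have h2 : 0 ≠ q := by omega
    simp [h2]
  have hle : F.natDegree ≤ q := by
    rw [hF, ← C_mul]
    refine (natDegree_sub_le _ _).trans (max_le ((natDegree_sub_le _ _).trans (max_le ?_ ?_)) ?_)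
    · have := natDegree_C_mul_X_pow_le (u * E) 1
      rw [pow_one] at this
      omega
    · exact natDegree_C_mul_X_pow_le _ _
    · rw [natDegree_C]; omega
  have hdeg : F.natDegree = q := by
    refine le_antisymm hle (le_natDegree_of_ne_zero ?_)
    rw [hcq]; exact neg_ne_zero.2 hE0
  have hlc : F.leadingCoeff = -E := by
    rw [leadingCoeff, hdeg, hcq]
  have hmap : F.map (Ideal.Quotient.mk (Ideal.span {π})) =
      C (Ideal.Quotient.mk (Ideal.span {π}) (-S)) := by
    have hE' : Ideal.Quotient.mk (Ideal.span {π}) E = 0 :=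
      Ideal.Quotient.eq_zero_iff_mem.2 (Ideal.mem_span_singleton.2 hE)
    rw [hF]
    simp only [Polynomial.map_sub, Polynomial.map_mul, Polynomial.map_pow, map_C, map_X, hE',
      C_0, mul_zero, zero_mul, sub_zero, zero_sub, map_neg]
  have hS' : ¬ π ∣ -S := fun h => hS ((dvd_neg).1 h)
  have key : ∀ A B : R[X], F = A * B → B.natDegree = 0 → IsUnit B := by
    intro A B hAB hB
    obtain ⟨b, rfl⟩ : ∃ b, B = C b := ⟨_, eq_C_of_natDegree_eq_zero hB⟩
    rw [isUnit_C]
    apply hcop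
    · rw [← dvd_neg, ← hcq, hAB, coeff_mul_C]
      exact dvd_mul_left _ _
    · rw [← dvd_neg, ← hc0, hAB, coeff_mul_C]
      exact dvd_mul_left _ _
  refine ⟨?_, ?_⟩
  · intro hu
    have := natDegree_eq_zero_of_isUnit hu
    omega
  · intro A B hAB
    by_cases hB : B.natDegree = 0
    · exact Or.inr (key A B hAB hB)
    by_cases hA : A.natDegree = 0
    · exact Or.inl (key B A (by rw [hAB, mul_comm]) hA)
    exfalso
    have h1 : π ∣ A.leadingCoeff := natDegree_zero_of_map_mul (B := B) hπ hS' (by rw [← hAB, hmap])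
      (Nat.pos_of_ne_zero hA)
    have h2 : π ∣ B.leadingCoeff := natDegree_zero_of_map_mul (B := A) hπ hS'
      (by rw [mul_comm, ← hAB, hmap]) (Nat.pos_of_ne_zero hB)
    apply hE2
    rw [← dvd_neg, ← hlc, hAB, leadingCoeff_mul, pow_two]
    exact mul_dvd_mul h1 h2

end aux

open MvPolynomial

variable {L : Type} [Field L] {q : ℕ}

/-- coprimality of the two coefficients, in the variables x1, x2, x3 (numbered 0, 1, 2) -/
theorem cop_aux (hq : 2 ≤ q) (b : MvPolynomial (Fin 3) L)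
    (hE : b ∣ X 2 ^ q - X 2 * X 1 ^ (q - 1))
    (hS : b ∣ X 0 * X 1 * (X 1 ^ (q - 1) - X 0 ^ (q - 1)) ^ 2) : IsUnit b := by
  obtain ⟨r, rfl⟩ : ∃ r, q = r + 2 := ⟨q - 2, by omega⟩
  have hr : r + 2 - 1 = r + 1 := by omega
  rw [hr] at hE hS
  set ψ := finSuccEquiv L 2 with hψ
  have hX0 : ψ (X 0) = Polynomial.X := finSuccEquiv_X_zero
  have hX1 : ψ (X 1) = Polynomial.C (X 0) := finSuccEquiv_X_succ (j := 0)
  have hX2 : ψ (X 2) = Polynomial.C (X 1) := finSuccEquiv_X_succ (j := 1)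
  have hE' : ψ b ∣ Polynomial.C (X 1 ^ (r + 2) - X 1 * X 0 ^ (r + 1)) := by
    have := map_dvd ψ hE
    rw [map_sub, map_mul, map_pow, map_pow, hX1, hX2] at this
    rw [Polynomial.C_sub, Polynomial.C_mul, Polynomial.C_pow, Polynomial.C_pow]
    exact this
  have hS' : ψ b ∣ Polynomial.X * Polynomial.C (X 0) *
      (Polynomial.C (X 0) ^ (r + 1) - Polynomial.X ^ (r + 1)) ^ 2 := by
    have := map_dvd ψ hS
    rw [map_mul, map_mul, map_pow, map_sub, map_pow, map_pow, hX0, hX1] at this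
    exact this
  have hne : (X 1 ^ (r + 2) - X 1 * X 0 ^ (r + 1) : MvPolynomial (Fin 2) L) ≠ 0 := by
    intro h
    have := congrArg (MvPolynomial.eval (fun i : Fin 2 => if i = 0 then (0 : L) else 1)) h
    simp at this
  have hdeg : (ψ b).natDegree = 0 := by
    have := Polynomial.natDegree_le_of_dvd hE' (Polynomial.C_ne_zero.2 hne)
    rw [Polynomial.natDegree_C] at this
    omega
  obtain ⟨c, hc⟩ : ∃ c, ψ b = Polynomial.C c := ⟨_, Polynomial.eq_C_of_natDegree_eq_zero hdeg⟩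
  rw [hc] at hE' hS'
  have hE2 : c ∣ X 1 ^ (r + 2) - X 1 * X 0 ^ (r + 1) := (Polynomial.C_dvd_iff_dvd_coeff _ _).1 hE' 0 |>.trans
    (by rw [Polynomial.coeff_C_zero])
  have hS2 : c ∣ (X 0 : MvPolynomial (Fin 2) L) := by
    have h1 := (Polynomial.C_dvd_iff_dvd_coeff _ _).1 hS' (2 * (r + 1) + 1)
    have h2 : (Polynomial.X * Polynomial.C (X 0 : MvPolynomial (Fin 2) L) *
      (Polynomial.C (X 0) ^ (r + 1) - Polynomial.X ^ (r + 1)) ^ 2).coeff (2 * (r + 1) + 1) = X 0 := by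
      have h3 : (Polynomial.X * Polynomial.C (X 0 : MvPolynomial (Fin 2) L) *
        (Polynomial.C (X 0) ^ (r + 1) - Polynomial.X ^ (r + 1)) ^ 2) =
        (Polynomial.C (X 0 * (X 0 ^ (r + 1)) ^ 2) -
          Polynomial.C (2 * X 0 * X 0 ^ (r + 1)) * Polynomial.X ^ (r + 1)
          + Polynomial.C (X 0) * Polynomial.X ^ (2 * (r + 1))) * Polynomial.X := by
        simp only [Polynomial.C_mul, Polynomial.C_pow, map_ofNat]
        ring
      have e1 : 2 * (r + 1) ≠ 0 := by omega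
      have e2 : 2 * (r + 1) ≠ r + 1 := by omega
      rw [h3, Polynomial.coeff_mul_X, Polynomial.coeff_add, Polynomial.coeff_sub,
        Polynomial.coeff_C, Polynomial.coeff_C_mul_X_pow, Polynomial.coeff_C_mul_X_pow,
        if_neg e1, if_neg e2, if_pos rfl, sub_zero, zero_add]
    rwa [h2] at h1
  have hcu : IsUnit c := by
    obtain ⟨d, hd⟩ := hS2
    have hirr : Irreducible (X 0 : MvPolynomial (Fin 2) L) := (X_prime (i := (0 : Fin 2))).irreducible
    rcases hirr.isUnit_or_isUnit hd with h | h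
    · exact h
    · exfalso
      have h1 : (X 0 : MvPolynomial (Fin 2) L) ∣ c := by
        rw [hd]
        exact (h.mul_right_dvd).2 dvd_rfl
      have h2 : (X 0 : MvPolynomial (Fin 2) L) ∣ X 1 ^ (r + 2) := by
        have h3 := h1.trans hE2
        have h4 : (X 0 : MvPolynomial (Fin 2) L) ∣ X 1 * X 0 ^ (r + 1) :=
          (dvd_pow_self _ (Nat.succ_ne_zero r)).mul_left _
        have h5 := dvd_add h3 h4
        simpa using h5
      have h6 := (X_prime (R := L) (i := (0 : Fin 2))).dvd_of_dvd_pow h2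
      rw [X_dvd_X] at h6
      exact absurd h6 (by simp)
  have : IsUnit (ψ b) := by rw [hc]; exact Polynomial.isUnit_C.2 hcu
  exact (MulEquiv.isUnit_map ψ).1 this

theorem FF_irreducible (hq : 2 ≤ q) : Irreducible (FF L q) := by
  obtain ⟨r, rfl⟩ : ∃ r, q = r + 2 := ⟨q - 2, by omega⟩
  set ψ := finSuccEquiv L 3 with hψ
  have hX0 : ψ (X 0) = Polynomial.X := finSuccEquiv_X_zero
  have hX1 : ψ (X 1) = Polynomial.C (X 0) := finSuccEquiv_X_succ (j := 0)
  have hX2 : ψ (X 2) = Polynomial.C (X 1) := finSuccEquiv_X_succ (j := 1)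
  have hX3 : ψ (X 3) = Polynomial.C (X 2) := finSuccEquiv_X_succ (j := 2)
  rw [← MulEquiv.irreducible_iff ψ]
  have hr : r + 2 - 1 = r + 1 := by omega
  refine irr_aux (π := (X 2 : MvPolynomial (Fin 3) L))
    (E := X 2 ^ (r + 2) - X 2 * X 1 ^ (r + 1))
    (S := X 0 * X 1 * (X 1 ^ (r + 1) - X 0 ^ (r + 1)) ^ 2) (u := X 0 ^ (r + 1))
    X_prime ?_ ?_ ?_ ?_ hq ?_
  · exact dvd_sub (dvd_pow_self _ (by omega)) (dvd_mul_right _ _)
  · intro h
    have h1 : (X 2 ^ 2 : MvPolynomial (Fin 3) L) ∣ X 2 * X 1 ^ (r + 1) := by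
      have h2 : (X 2 ^ 2 : MvPolynomial (Fin 3) L) ∣ X 2 ^ (r + 2) := pow_dvd_pow _ (by omega)
      have h3 := dvd_sub h2 h
      simpa using h3
    rw [pow_two, mul_dvd_mul_iff_left (X_ne_zero _)] at h1
    have h4 := (X_prime (R := L) (i := (2 : Fin 3))).dvd_of_dvd_pow h1
    rw [X_dvd_X] at h4
    exact absurd h4 (by decide)
  · intro h
    have hne1 : ¬ (X 2 : MvPolynomial (Fin 3) L) ∣ X 0 := by
      rw [X_dvd_X]; decide
    have hne2 : ¬ (X 2 : MvPolynomial (Fin 3) L) ∣ X 1 := by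
      rw [X_dvd_X]; decide
    have hp := (X_prime (R := L) (i := (2 : Fin 3)))
    rcases hp.dvd_or_dvd h with h1 | h1
    · rcases hp.dvd_or_dvd h1 with h2 | h2
      · exact hne1 h2
      · exact hne2 h2
    · have h2 := hp.dvd_of_dvd_pow h1
      obtain ⟨g, hg⟩ := h2
      have := congrArg (MvPolynomial.eval (fun i : Fin 3 => if i = 0 then (1 : L) else 0)) hg
      simp at this
  · intro b h1 h2
    exact cop_aux hq b h1 h2
  · rw [FF]
    simp only [map_sub, map_mul, map_pow, hX0, hX1, hX2, hX3, hr]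
    ring

end Pool.Agent.H891.FNC
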